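import Pool.Agent.W922.GY2.Stm

set_option autoImplicit false

namespace Pool.Agent.W693.GY2.Eta

open Filter Topology MeasureTheory Set
open scoped Pointwise

theorem eta : Pool.Agent.W922.GY2.S_ETA := by
  intro G _ _ _ _ _ _ _ μ _ W hW h1
  obtain ⟨f, hf1, hf0, hfc, hf⟩ := exists_continuous_one_zero_of_isCompact
    (isCompact_singleton (x := (1 : G))) hW.isClosed_compl
    (by rw [disjoint_compl_right_iff_subset]; exact singleton_subset_iff.mpr h1)
  refine ⟨f, f.continuous, hfc, fun x => ⟨(hf x).1, (hf x).2⟩, ?_, ?_⟩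
  · intro x hx
    by_contra hxW
    exact hx (hf0 hxW)
  · have hgc : Continuous fun y : G => f y⁻¹ := f.continuous.comp continuous_inv
    have hgs : HasCompactSupport fun y : G => f y⁻¹ :=
      hfc.comp_homeomorph (Homeomorph.inv G)
    have hgi : Integrable (fun y : G => f y⁻¹) μ := hgc.integrable_of_hasCompactSupport hgs
    rw [setIntegral_pos_iff_support_of_nonneg_ae (Filter.Eventually.of_forall fun y => (hf y⁻¹).1)
      hgi.integrableOn]
    have ho : IsOpen (Function.support (fun y : G => f y⁻¹) ∩ W) :=
      hgc.isOpen_support.inter hW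
    refine ho.measure_pos μ ⟨1, ?_, h1⟩
    rw [Function.mem_support, inv_one, hf1 (mem_singleton 1)]
    exact one_ne_zero

end Pool.Agent.W693.GY2.Eta
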